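import Pool.Agent.Y22.RX1

set_option autoImplicit false

/-!
Growth of the modulus of a real even entire function of order less than two along the circles with centre `0`.
-/

namespace Pool.Agent.V1213.AM

open Complex Filter Topology Polynomial
open Pool.Agent.H24R2.JP (had)
open Pool.Agent.Y22.RX (Ev)
open scoped ComplexConjugate

/-- one pair of factors -/
lemma fac_le {w w' v : ℂ} (hn : ‖w'‖ = ‖w‖) (hre : w'.re ≤ w.re)
    (hq : 0 ≤ ‖v‖ ^ 2 * (w.re + w'.re) - (‖w‖ ^ 2 + ‖v‖ ^ 2) * v.re) :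
    ‖w' - v‖ * ‖conj w' - v‖ ≤ ‖w - v‖ * ‖conj w - v‖ := by
  have key : ∀ x : ℂ, (‖x - v‖ * ‖conj x - v‖) ^ 2 =
      (‖x‖ ^ 2 + ‖v‖ ^ 2) ^ 2 - 4 * (‖x‖ ^ 2 + ‖v‖ ^ 2) * x.re * v.re + 4 * x.re ^ 2 * ‖v‖ ^ 2
        - 4 * ‖x‖ ^ 2 * v.im ^ 2 := by
    intro x
    rw [mul_pow, ← normSq_eq_norm_sq, ← normSq_eq_norm_sq, ← normSq_eq_norm_sq, ← normSq_eq_norm_sq]
    simp only [normSq_apply, sub_re, sub_im, conj_re, conj_im]
    ring
  refine (pow_le_pow_iff_left₀ (by positivity) (by positivity) two_ne_zero).1 ?_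
  rw [key, key, hn]
  nlinarith [mul_nonneg (sub_nonneg.2 hre) hq]

/-- real polynomials -/
theorem poly_comp (P : ℝ[X]) {w w' : ℂ} (hn : ‖w'‖ = ‖w‖) (hre : w'.re ≤ w.re)
    (hq : ∀ v : ℂ, aeval v P = 0 → 0 ≤ ‖v‖ ^ 2 * (w.re + w'.re) - (‖w‖ ^ 2 + ‖v‖ ^ 2) * v.re) :
    ‖aeval w' P‖ ≤ ‖aeval w P‖ := by
  set Q : ℂ[X] := P.map (algebraMap ℝ ℂ) with hQ
  have hev : ∀ x : ℂ, aeval x P = Q.eval x := fun x => by rw [hQ, eval_map_algebraMap]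
  have hprod : ∀ x : ℂ, ‖aeval x P‖ = ‖Q.leadingCoeff‖ * (Q.roots.map fun r => ‖x - r‖).prod := by
    intro x
    rw [hev, (IsAlgClosed.splits Q).eval_eq_prod_roots, norm_mul]
    congr 1
    induction Q.roots using Multiset.induction_on with
    | empty => simp
    | cons a s ih => simp only [Multiset.map_cons, Multiset.prod_cons, norm_mul, ih]
  have hsq : ∀ x : ℂ, ‖aeval x P‖ ^ 2 =
      ‖Q.leadingCoeff‖ ^ 2 * (Q.roots.map fun r => ‖x - r‖ * ‖conj x - r‖).prod := by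
    intro x
    have e0 : ‖aeval (conj x) P‖ = ‖aeval x P‖ := by rw [Polynomial.aeval_conj, RCLike.norm_conj]
    calc ‖aeval x P‖ ^ 2 = ‖aeval x P‖ * ‖aeval (conj x) P‖ := by rw [e0, sq]
      _ = _ := by rw [hprod, hprod, Multiset.prod_map_mul]; ring
  refine (pow_le_pow_iff_left₀ (norm_nonneg _) (norm_nonneg _) two_ne_zero).1 ?_
  rw [hsq, hsq]
  refine mul_le_mul_of_nonneg_left ?_ (by positivity)
  refine Multiset.prod_map_le_prod_map₀ _ _ (fun _ _ => by positivity) fun r hr => ?_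
  refine fac_le hn hre (hq r ?_)
  rw [mem_roots', IsRoot] at hr
  rw [hev]
  exact hr.2

variable {f F : ℂ → ℂ} {K : ℝ}

/-- the weak inequality -/
theorem ent_comp (h : Ev f F K) {w w' : ℂ} (hn : ‖w'‖ = ‖w‖) (hre : w'.re ≤ w.re)
    (hq : ∀ v : ℂ, F v = 0 → 0 ≤ ‖v‖ ^ 2 * (w.re + w'.re) - (‖w‖ ^ 2 + ‖v‖ ^ 2) * v.re) :
    ‖F w'‖ ≤ ‖F w‖ := by
  obtain ⟨P, hP1, hP2⟩ := had F K h.diff h.zero h.conj h.grow
  have ht : ∀ x : ℂ, Tendsto (fun N : ℕ => aeval x (P N)) atTop (𝓝 (F x)) := fun x =>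
    (tendstoLocallyUniformlyOn_univ.2 hP2).tendsto_at (Set.mem_univ x)
  exact le_of_tendsto_of_tendsto' (ht w').norm (ht w).norm
    fun N => poly_comp (P N) hn hre (fun x hx => hq x (hP1 N x hx))

/-- the strict inequality -/
theorem comp (h : Ev f F K) (hd : deriv F 0 ≠ 0) {w c : ℂ} (hc : ‖c‖ = 1) (hc1 : c ≠ 1) (hne : F w ≠ 0)
    (hev : ∀ᶠ x in 𝓝 w, (c * x).re ≤ x.re ∧ ∀ v : ℂ, F v = 0 →
      0 ≤ ‖v‖ ^ 2 * (x.re + (c * x).re) - (‖x‖ ^ 2 + ‖v‖ ^ 2) * v.re) :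
    ‖F (c * w)‖ < ‖F w‖ := by
  have hn : ∀ x : ℂ, ‖c * x‖ = ‖x‖ := fun x => by rw [norm_mul, hc, one_mul]
  have h0 := hev.self_of_nhds
  refine lt_of_le_of_ne (ent_comp h (hn w) h0.1 h0.2) fun heq => ?_
  set φ : ℂ → ℂ := fun x => F (c * x) / F x with hφ
  have hnev : ∀ᶠ x in 𝓝 w, F x ≠ 0 := h.diff.continuous.continuousAt.eventually_ne hne
  have hcd : Differentiable ℂ (fun x : ℂ => F (c * x)) :=
    h.diff.comp ((differentiable_const c).mul differentiable_id)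
  have hφd : ∀ᶠ x in 𝓝 w, DifferentiableAt ℂ φ x := by
    filter_upwards [hnev] with x hx
    exact (hcd x).div (h.diff x) hx
  have hφw : ‖φ w‖ = 1 := by
    simp only [hφ, norm_div, heq]
    exact div_self (norm_ne_zero_iff.2 hne)
  have hloc : IsLocalMax (norm ∘ φ) w := by
    filter_upwards [hev, hnev] with x hx hx'
    show ‖φ x‖ ≤ ‖φ w‖
    rw [hφw]
    simp only [hφ, norm_div]
    exact div_le_one_of_le₀ (ent_comp h (hn x) hx.1 hx.2) (norm_nonneg _)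
  have h1 := Complex.eventually_eq_of_isLocalMax_norm hφd hloc
  have h2 : (fun x : ℂ => F (c * x)) =ᶠ[𝓝 w] fun x => φ w * F x := by
    filter_upwards [h1, hnev] with x hx hx'
    rw [← hx]
    simp only [hφ]
    rw [div_mul_cancel₀ _ hx']
  have ha1 : AnalyticOnNhd ℂ (fun x : ℂ => F (c * x)) Set.univ := fun x _ => hcd.analyticAt x
  have ha2 : AnalyticOnNhd ℂ (fun x : ℂ => φ w * F x) Set.univ := fun x _ =>
    ((differentiable_const (φ w)).mul h.diff).analyticAt x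
  have h3 := ha1.eq_of_eventuallyEq ha2 h2
  have h4 : φ w = 1 := by
    have := congrFun h3 0
    simp only [mul_zero] at this
    have h5 : (φ w - 1) * F 0 = 0 := by rw [sub_mul, one_mul, ← this, sub_self]
    rcases mul_eq_zero.1 h5 with h6 | h6
    · exact sub_eq_zero.1 h6
    · exact absurd h6 h.zero
  rw [h4] at h3
  simp only [one_mul] at h3
  have h5 : HasDerivAt (fun x : ℂ => F (c * x)) (deriv F 0 * (c * 1)) 0 := by
    have e : HasDerivAt F (deriv F 0) (c * 0) := by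
      rw [mul_zero]
      exact (h.diff 0).hasDerivAt
    exact e.comp (0 : ℂ) ((hasDerivAt_id (0 : ℂ)).const_mul c)
  have h6 : HasDerivAt (fun x : ℂ => F (c * x)) (deriv F 0) 0 := by
    have e : (fun x : ℂ => F (c * x)) = F := h3
    rw [e]
    exact (h.diff 0).hasDerivAt
  have h7 := h5.unique h6
  rw [mul_one] at h7
  have h8 : deriv F 0 * (c - 1) = 0 := by rw [mul_sub, h7, mul_one, sub_self]
  rcases mul_eq_zero.1 h8 with h9 | h9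
  · exact hd h9
  · exact hc1 (sub_eq_zero.1 h9)

lemma sq_re (z : ℂ) : (z ^ 2).re = 2 * z.re ^ 2 - ‖z‖ ^ 2 := by
  rw [← normSq_eq_norm_sq, normSq_apply, sq, mul_re]
  ring

/-- comparison on a circle, general form -/
theorem circ (h : Ev f F K) (hd : deriv F 0 ≠ 0) {z z' : ℂ} (hn : ‖z'‖ = ‖z‖) (hre : |z'.re| < |z.re|)
    (hne : f z ≠ 0) (τ : ℝ → ℝ) (hτ : Continuous τ) (hm : τ (‖z‖ ^ 2) < z.re ^ 2 + z'.re ^ 2)
    (hs : ∀ b : ℂ, f b = 0 → ∀ s m : ℝ, 0 ≤ s → -(2 * s) ≤ m → τ s < s + m / 2 →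
      0 ≤ (‖b‖ ^ 2) ^ 2 * m + (s ^ 2 + (‖b‖ ^ 2) ^ 2) * (‖b‖ ^ 2 - 2 * b.re ^ 2)) :
    ‖f z'‖ < ‖f z‖ := by
  have hz0 : z ≠ 0 := by
    rintro rfl
    simp at hre
    linarith [abs_nonneg z'.re]
  have hsq : z'.re ^ 2 < z.re ^ 2 := sq_lt_sq.2 hre
  set c : ℂ := (z' / z) ^ 2 with hc
  have hcn : ‖c‖ = 1 := by
    rw [hc, norm_pow, norm_div, hn, div_self (norm_ne_zero_iff.2 hz0), one_pow]
  have hcw : c * z ^ 2 = z' ^ 2 := by
    rw [hc, div_pow, div_mul_cancel₀ _ (pow_ne_zero 2 hz0)]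
  have hc1 : c ≠ 1 := by
    intro h1
    rw [h1, one_mul] at hcw
    have := congrArg Complex.re hcw
    rw [sq_re, sq_re, hn] at this
    linarith
  rw [← h.sq z', ← h.sq z, ← hcw]
  refine comp h hd hcn hc1 (by rw [h.sq]; exact hne) ?_
  have c1 : ∀ᶠ x in 𝓝 (z ^ 2), (c * x).re < x.re := by
    refine ContinuousAt.eventually_lt (by fun_prop) (by fun_prop) ?_
    rw [hcw, sq_re, sq_re, hn]
    linarith
  have c2 : ∀ᶠ x in 𝓝 (z ^ 2), τ ‖x‖ < ‖x‖ + (x.re + (c * x).re) / 2 := by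
    refine ContinuousAt.eventually_lt (by fun_prop) (by fun_prop) ?_
    rw [hcw, sq_re, sq_re, hn, norm_pow]
    linarith
  filter_upwards [c1, c2] with x hx1 hx2
  refine ⟨hx1.le, fun v hv => ?_⟩
  obtain ⟨b, rfl⟩ := IsAlgClosed.exists_pow_nat_eq v (n := 2) (by norm_num)
  rw [h.sq] at hv
  have e1 := abs_le.1 (Complex.abs_re_le_norm x)
  have e2 := abs_le.1 (Complex.abs_re_le_norm (c * x))
  rw [norm_mul, hcn, one_mul] at e2
  have h1 := hs b hv ‖x‖ (x.re + (c * x).re) (norm_nonneg _) (by linarith [e1.1, e2.1]) hx2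
  rw [sq_re, norm_pow]
  linarith

/-- zeros in the strip `|Re b| ≤ h ≤ 1/2`, `2 ≤ |b|` -/
theorem circ_h (h : Ev f F K) (hd : deriv F 0 ≠ 0) {a : ℝ} (ha0 : 0 ≤ a) (ha : a ≤ 1 / 2)
    (hs : ∀ b : ℂ, f b = 0 → |b.re| ≤ a ∧ 2 ≤ ‖b‖)
    {z z' : ℂ} (hn : ‖z'‖ = ‖z‖) (hre : |z'.re| < |z.re|)
    (hm : min (a ^ 2 * ‖z‖ ^ 2 / 2) (15 * a ^ 2 / 7) < z.re ^ 2 + z'.re ^ 2) : ‖f z'‖ < ‖f z‖ := by
  have hsq : z'.re ^ 2 < z.re ^ 2 := sq_lt_sq.2 hre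
  have ha2 : a ^ 2 ≤ 1 / 4 := by nlinarith
  have ha2' : 0 ≤ a ^ 2 := sq_nonneg a
  have hb2 : ∀ b : ℂ, f b = 0 → b.re ^ 2 ≤ a ^ 2 ∧ 4 ≤ ‖b‖ ^ 2 := by
    intro b hb
    obtain ⟨h1, h2⟩ := hs b hb
    refine ⟨?_, by nlinarith⟩
    rw [← sq_abs]
    nlinarith [abs_nonneg b.re]
  refine circ h hd hn hre ?_ (fun s => min (a ^ 2 * s / 2) (15 * a ^ 2 / 7)) (by fun_prop) hm ?_
  · intro h0
    obtain ⟨h1, h2⟩ := hb2 z h0
    have h3 : 2 * a ^ 2 ≤ min (a ^ 2 * ‖z‖ ^ 2 / 2) (15 * a ^ 2 / 7) :=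
      le_min (by nlinarith) (by linarith)
    linarith
  · intro b hb s m hs0 hm2 hτ
    obtain ⟨h1, h2⟩ := hb2 b hb
    set ρ : ℝ := ‖b‖ ^ 2 with hρ
    set A : ℝ := a ^ 2 with hA
    have k1 : ρ - 2 * A ≤ ρ - 2 * b.re ^ 2 := by linarith
    have k2 : 0 ≤ s ^ 2 + ρ ^ 2 := by positivity
    have k3 : (s ^ 2 + ρ ^ 2) * (ρ - 2 * A) ≤ (s ^ 2 + ρ ^ 2) * (ρ - 2 * b.re ^ 2) :=
      mul_le_mul_of_nonneg_left k1 k2
    have k4 : 0 ≤ ρ ^ 2 := by positivity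
    rcases min_lt_iff.1 hτ with h3 | h3
    · have h4 : (A - 2) * s ≤ m := by linarith
      have h5 := mul_le_mul_of_nonneg_left h4 k4
      have h6 : 0 ≤ (s - ρ) ^ 2 * (ρ - 2 * A) := mul_nonneg (sq_nonneg _) (by linarith)
      have h7 : 0 ≤ (s * ρ) * (A * (ρ - 4)) :=
        mul_nonneg (mul_nonneg hs0 (by linarith)) (mul_nonneg ha2' (by linarith))
      nlinarith
    · have h4 : 30 * A / 7 - 2 * s ≤ m := by linarith
      have h5 := mul_le_mul_of_nonneg_left h4 k4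
      have h6 : 0 < ρ - 2 * A := by linarith
      have h7 : 0 ≤ (ρ - 2 * A) * (ρ ^ 2 * (30 * A / 7 - 2 * s) + (s ^ 2 + ρ ^ 2) * (ρ - 2 * A)) := by
        have e : (ρ - 2 * A) * (ρ ^ 2 * (30 * A / 7 - 2 * s) + (s ^ 2 + ρ ^ 2) * (ρ - 2 * A)) =
            ((ρ - 2 * A) * s - ρ ^ 2) ^ 2 + ρ ^ 2 * ((2 / 7) * (A * (ρ - 16 * A))) := by ring
        rw [e]
        have h8 : 0 ≤ A * (ρ - 16 * A) := mul_nonneg ha2' (by linarith)
        positivity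
      have h8 := nonneg_of_mul_nonneg_right h7 h6
      linarith

/-- the zeros far from the circle -/
lemma far_zero {r R β : ℝ} (hr : 0 ≤ r) (hR : 2 ≤ R) (hβ : β ^ 2 ≤ 1 / 4) (hd : 81 / 100 ≤ (r - R) ^ 2) :
    2 * β ^ 2 * ((r ^ 2) ^ 2 + (R ^ 2) ^ 2) ≤ R ^ 2 * (r ^ 2 - R ^ 2) ^ 2 := by
  obtain ⟨D, hD⟩ : ∃ D : ℝ, D = (r - R) ^ 2 := ⟨_, rfl⟩
  obtain ⟨S, hS⟩ : ∃ S : ℝ, S = (r + R) ^ 2 := ⟨_, rfl⟩
  have hR2 : 4 ≤ R ^ 2 := by nlinarith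
  have e1 : (r ^ 2 - R ^ 2) ^ 2 = D * S := by rw [hD, hS]; ring
  have e2 : 8 * ((r ^ 2) ^ 2 + (R ^ 2) ^ 2) = S ^ 2 + 6 * (S * D) + D ^ 2 := by rw [hD, hS]; ring
  have h1 : S ≤ 8 * R ^ 2 + 2 * D := by
    rw [hS, hD]
    nlinarith [sq_nonneg (3 * R - r)]
  have h2 : D ≤ S := by
    rw [hS, hD]
    nlinarith [mul_nonneg hr (by linarith : (0 : ℝ) ≤ R)]
  rw [← hD] at hd
  have hS0 : 0 ≤ S := by linarith
  have h3 : S + 7 * D ≤ 16 * D * R ^ 2 := by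
    have h4 : 0 ≤ (D - 81 / 100) * (16 * R ^ 2 - 9) := mul_nonneg (by linarith) (by linarith)
    nlinarith
  have h5 : S * (S + 7 * D) ≤ S * (16 * D * R ^ 2) := mul_le_mul_of_nonneg_left h3 hS0
  have h6 : D * D ≤ D * S := mul_le_mul_of_nonneg_left h2 (by linarith)
  rw [e1]
  have h7 : 2 * β ^ 2 * ((r ^ 2) ^ 2 + (R ^ 2) ^ 2) ≤ 1 / 2 * ((r ^ 2) ^ 2 + (R ^ 2) ^ 2) :=
    mul_le_mul_of_nonneg_right (by linarith) (by positivity)
  nlinarith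

/-- local form: no zeros off the imaginary axis close to the circle -/
theorem circ_loc (h : Ev f F K) (hd : deriv F 0 ≠ 0) (hs : ∀ b : ℂ, f b = 0 → |b.re| ≤ 1 / 2 ∧ 2 ≤ ‖b‖)
    {z z' : ℂ} (hn : ‖z'‖ = ‖z‖) (hre : |z'.re| < |z.re|)
    (hloc : ∀ b : ℂ, f b = 0 → b.re ≠ 0 → 1 ≤ |‖z‖ - ‖b‖|) : ‖f z'‖ < ‖f z‖ := by
  have hz0 : z ≠ 0 := by
    rintro rfl
    simp at hre
    linarith [abs_nonneg z'.re]
  have hsq : z'.re ^ 2 < z.re ^ 2 := sq_lt_sq.2 hre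
  have hne : f z ≠ 0 := by
    intro h0
    have h1 := hloc z h0 (by
      intro h2
      rw [h2] at hsq
      nlinarith [sq_nonneg z'.re])
    rw [sub_self, abs_zero] at h1
    linarith
  set c : ℂ := (z' / z) ^ 2 with hc
  have hcn : ‖c‖ = 1 := by
    rw [hc, norm_pow, norm_div, hn, div_self (norm_ne_zero_iff.2 hz0), one_pow]
  have hcw : c * z ^ 2 = z' ^ 2 := by
    rw [hc, div_pow, div_mul_cancel₀ _ (pow_ne_zero 2 hz0)]
  have hc1 : c ≠ 1 := by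
    intro h1
    rw [h1, one_mul] at hcw
    have := congrArg Complex.re hcw
    rw [sq_re, sq_re, hn] at this
    linarith
  rw [← h.sq z', ← h.sq z, ← hcw]
  refine comp h hd hcn hc1 (by rw [h.sq]; exact hne) ?_
  have c1 : ∀ᶠ x in 𝓝 (z ^ 2), (c * x).re < x.re := by
    refine ContinuousAt.eventually_lt (by fun_prop) (by fun_prop) ?_
    rw [hcw, sq_re, sq_re, hn]
    linarith
  have c2 : ∀ᶠ x in 𝓝 (z ^ 2), |Real.sqrt ‖x‖ - ‖z‖| < 1 / 10 := by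
    refine ContinuousAt.eventually_lt (by fun_prop) (by fun_prop) ?_
    rw [norm_pow, Real.sqrt_sq (norm_nonneg _), sub_self, abs_zero]
    norm_num
  filter_upwards [c1, c2] with x hx1 hx2
  refine ⟨hx1.le, fun v hv => ?_⟩
  obtain ⟨b, rfl⟩ := IsAlgClosed.exists_pow_nat_eq v (n := 2) (by norm_num)
  rw [h.sq] at hv
  obtain ⟨hb1, hb2⟩ := hs b hv
  have e1 := abs_le.1 (Complex.abs_re_le_norm x)
  have e2 := abs_le.1 (Complex.abs_re_le_norm (c * x))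
  rw [norm_mul, hcn, one_mul] at e2
  have hβ : b.re ^ 2 ≤ 1 / 4 := by
    rw [← sq_abs]
    nlinarith [abs_nonneg b.re]
  have hr2 : (Real.sqrt ‖x‖) ^ 2 = ‖x‖ := Real.sq_sqrt (norm_nonneg _)
  have key : 2 * b.re ^ 2 * (‖x‖ ^ 2 + (‖b‖ ^ 2) ^ 2) ≤ ‖b‖ ^ 2 * (‖x‖ - ‖b‖ ^ 2) ^ 2 := by
    rcases eq_or_ne b.re 0 with h0 | h0
    · rw [h0]
      simp only [ne_eq, OfNat.ofNat_ne_zero, not_false_eq_true, zero_pow, mul_zero, zero_mul]
      positivity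
    · have h1 := hloc b hv h0
      have h2 : 9 / 10 ≤ |Real.sqrt ‖x‖ - ‖b‖| := by
        have h3 := abs_sub_abs_le_abs_sub (‖z‖ - ‖b‖) (‖z‖ - Real.sqrt ‖x‖)
        have h4 : ‖z‖ - ‖b‖ - (‖z‖ - Real.sqrt ‖x‖) = Real.sqrt ‖x‖ - ‖b‖ := by ring
        rw [h4, abs_sub_comm ‖z‖ (Real.sqrt ‖x‖)] at h3
        linarith
      have h5 : 81 / 100 ≤ (Real.sqrt ‖x‖ - ‖b‖) ^ 2 := by
        rw [← sq_abs]
        nlinarith
      have h6 := far_zero (Real.sqrt_nonneg ‖x‖) hb2 hβ h5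
      rw [hr2] at h6
      exact h6
  have h7 : -(2 * ‖x‖) ≤ x.re + (c * x).re := by linarith [e1.1, e2.1]
  have h8 := mul_le_mul_of_nonneg_left h7 (by positivity : (0 : ℝ) ≤ (‖b‖ ^ 2) ^ 2)
  rw [sq_re, norm_pow]
  nlinarith

/-- two real parts of points of a circle -/
lemma re_sum (z : ℂ) (α : ℝ) :
    (1 - |Real.cos α|) * ‖z‖ ^ 2 ≤ z.re ^ 2 + (cexp (α * I) * z).re ^ 2 := by
  rw [← normSq_eq_norm_sq, normSq_apply, Complex.mul_re, exp_ofReal_mul_I_re, exp_ofReal_mul_I_im]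
  have hsc := Real.sin_sq_add_cos_sq α
  set c := Real.cos α
  set s := Real.sin α
  set x := z.re
  set y := z.im
  have h0 : 0 ≤ |c| := abs_nonneg c
  have hc2 : c ^ 2 = |c| ^ 2 := (sq_abs c).symm
  have hs2 : s ^ 2 = (1 - |c|) * (1 + |c|) := by nlinarith
  rcases abs_choice c with h | h
  · have h1 : 0 ≤ |c| * ((1 + |c|) * x - s * y) ^ 2 := mul_nonneg h0 (sq_nonneg _)
    have h2 : (1 + |c|) * (x ^ 2 + (c * x - s * y) ^ 2 - (1 - |c|) * (x * x + y * y)) =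
        |c| * ((1 + |c|) * x - s * y) ^ 2 := by
      rw [h] at hs2 ⊢
      linear_combination (y ^ 2) * hs2
    have h3 : 0 ≤ x ^ 2 + (c * x - s * y) ^ 2 - (1 - |c|) * (x * x + y * y) := by
      rw [← h2] at h1
      exact nonneg_of_mul_nonneg_right h1 (by linarith)
    linarith
  · have h1 : 0 ≤ |c| * ((1 + |c|) * x + s * y) ^ 2 := mul_nonneg h0 (sq_nonneg _)
    have h2 : (1 + |c|) * (x ^ 2 + (c * x - s * y) ^ 2 - (1 - |c|) * (x * x + y * y)) =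
        |c| * ((1 + |c|) * x + s * y) ^ 2 := by
      rw [h] at hs2 ⊢
      linear_combination (y ^ 2) * hs2
    have h3 : 0 ≤ x ^ 2 + (c * x - s * y) ^ 2 - (1 - |c|) * (x * x + y * y) := by
      rw [← h2] at h1
      exact nonneg_of_mul_nonneg_right h1 (by linarith)
    linarith

lemma norm_rot (z : ℂ) (α : ℝ) : ‖cexp (α * I) * z‖ = ‖z‖ := by
  rw [norm_mul, norm_exp_ofReal_mul_I, one_mul]

/-- zeros of combinations of `f z` and `f (e^{iα} z)` -/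
theorem rot_h (h : Ev f F K) (hd : deriv F 0 ≠ 0) {a : ℝ} (ha0 : 0 ≤ a) (ha : a ≤ 1 / 2)
    (hs : ∀ b : ℂ, f b = 0 → |b.re| ≤ a ∧ 2 ≤ ‖b‖) {α : ℝ} {c : ℂ} (hα : |Real.cos α| < 1 - a ^ 2 / 2)
    (hc : ‖c‖ = 1) {z : ℂ} (hz : f z + c * f (cexp (α * I) * z) = 0) :
    |z.re| = |(cexp (α * I) * z).re| := by
  set z' : ℂ := cexp (α * I) * z with hz'
  have hn : ‖z'‖ = ‖z‖ := norm_rot z α
  have he : ‖f z‖ = ‖f z'‖ := by
    rw [eq_neg_of_add_eq_zero_left hz, norm_neg, norm_mul, hc, one_mul]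
  rcases eq_or_ne z 0 with h0 | h0
  · rw [hz', h0, mul_zero]
  have hz0 : 0 < ‖z‖ ^ 2 := by
    have := norm_pos_iff.2 h0
    positivity
  have hsum : min (a ^ 2 * ‖z‖ ^ 2 / 2) (15 * a ^ 2 / 7) < z.re ^ 2 + z'.re ^ 2 := by
    refine (min_le_left _ _).trans_lt (lt_of_lt_of_le ?_ (re_sum z α))
    nlinarith
  rcases lt_trichotomy |z.re| |z'.re| with h1 | h1 | h1
  · have h2 := circ_h h hd ha0 ha hs hn.symm h1 (by rw [hn, add_comm]; exact hsum)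
    linarith
  · exact h1
  · have h2 := circ_h h hd ha0 ha hs hn h1 hsum
    linarith

/-- local form -/
theorem rot_loc (h : Ev f F K) (hd : deriv F 0 ≠ 0) (hs : ∀ b : ℂ, f b = 0 → |b.re| ≤ 1 / 2 ∧ 2 ≤ ‖b‖)
    {α : ℝ} {c : ℂ} (hc : ‖c‖ = 1) {z : ℂ} (hz : f z + c * f (cexp (α * I) * z) = 0)
    (hloc : ∀ b : ℂ, f b = 0 → b.re ≠ 0 → 1 ≤ |‖z‖ - ‖b‖|) : |z.re| = |(cexp (α * I) * z).re| := by
  set z' : ℂ := cexp (α * I) * z with hz'
  have hn : ‖z'‖ = ‖z‖ := norm_rot z α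
  have he : ‖f z‖ = ‖f z'‖ := by
    rw [eq_neg_of_add_eq_zero_left hz, norm_neg, norm_mul, hc, one_mul]
  rcases lt_trichotomy |z.re| |z'.re| with h1 | h1 | h1
  · have h2 := circ_loc h hd hs hn.symm h1 (by rw [hn]; exact hloc)
    linarith
  · exact h1
  · have h2 := circ_loc h hd hs hn h1 hloc
    linarith

/-- the converse -/
theorem rot_conv {f : ℂ → ℂ} (hf : Continuous f) (hreal : ∀ x : ℝ, f x ≠ 0)
    (H : ∀ (α : ℝ) (c : ℂ), Real.sin α ≠ 0 → ‖c‖ = 1 → ∀ z : ℂ, f z + c * f (cexp (α * I) * z) = 0 →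
      |z.re| = |(cexp (α * I) * z).re|) : ∀ b : ℂ, f b = 0 → b.re = 0 := by
  intro b hb
  by_contra hre
  have him : b.im ≠ 0 := by
    intro h
    refine hreal b.re ?_
    rw [show ((b.re : ℝ) : ℂ) = b from Complex.ext (by simp) (by simp [h])]
    exact hb
  have h2 : (b ^ 2).im ≠ 0 := by
    have : (b ^ 2).im = 2 * (b.re * b.im) := by rw [sq, Complex.mul_im]; ring
    rw [this]
    exact mul_ne_zero two_ne_zero (mul_ne_zero hre him)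
  have hcont : Continuous fun δ : ℝ => (b ^ 2 * cexp (δ * I)).im := by fun_prop
  have hev : ∀ᶠ δ : ℝ in 𝓝 0, (b ^ 2 * cexp (δ * I)).im ≠ 0 :=
    hcont.continuousAt.eventually_ne (by simpa using h2)
  obtain ⟨ε, hε, hε2⟩ := Metric.eventually_nhds_iff.1 hev
  obtain ⟨α, hαd⟩ : ∃ α : ℝ, α = min (ε / 2) 1 := ⟨_, rfl⟩
  have hα0 : 0 < α := by rw [hαd]; exact lt_min (by linarith) one_pos
  have hα1 : α ≤ 1 := by rw [hαd]; exact min_le_right _ _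
  have hαε : α < ε := by
    have : α ≤ ε / 2 := by rw [hαd]; exact min_le_left _ _
    linarith
  have hsin : 0 < Real.sin α := Real.sin_pos_of_pos_of_lt_pi hα0 (by linarith [Real.pi_gt_three])
  set g : ℝ → ℝ := fun t => ‖f (cexp (((-(α * t) : ℝ) : ℂ) * I) * b)‖ -
    ‖f (cexp (((α * (1 - t) : ℝ) : ℂ) * I) * b)‖ with hg
  have hgc : Continuous g := by
    rw [hg]
    fun_prop
  have hg0 : g 0 ≤ 0 := by
    simp only [hg, mul_zero, neg_zero, Complex.ofReal_zero, zero_mul, Complex.exp_zero, one_mul, hb,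
      norm_zero, zero_sub]
    exact neg_nonpos.2 (norm_nonneg _)
  have hg1 : 0 ≤ g 1 := by
    simp only [hg, sub_self, mul_zero, Complex.ofReal_zero, zero_mul, Complex.exp_zero, one_mul, hb,
      norm_zero, sub_zero]
    exact norm_nonneg _
  obtain ⟨t, ⟨ht0, ht1⟩, ht⟩ := intermediate_value_Icc zero_le_one hgc.continuousOn ⟨hg0, hg1⟩
  set z : ℂ := cexp (((-(α * t) : ℝ) : ℂ) * I) * b with hz
  have hz' : cexp (α * I) * z = cexp (((α * (1 - t) : ℝ) : ℂ) * I) * b := by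
    rw [hz, ← mul_assoc, ← Complex.exp_add]
    congr 2
    push_cast
    ring
  have hnn : ‖f z‖ = ‖f (cexp (α * I) * z)‖ := by
    rw [hz']
    have : g t = 0 := ht
    simp only [hg] at this
    linarith
  obtain ⟨c, hc1, hc2⟩ : ∃ c : ℂ, ‖c‖ = 1 ∧ f z + c * f (cexp (α * I) * z) = 0 := by
    rcases eq_or_ne (f (cexp (α * I) * z)) 0 with h0 | h0
    · refine ⟨1, norm_one, ?_⟩
      rw [h0, norm_zero, norm_eq_zero] at hnn
      rw [hnn, h0]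
      ring
    · refine ⟨-(f z / f (cexp (α * I) * z)), ?_, ?_⟩
      · rw [norm_neg, norm_div, hnn, div_self (norm_ne_zero_iff.2 h0)]
      · field_simp
        ring
  have h3 := H α c hsin.ne' hc1 z hc2
  have h4 : z.re ^ 2 = (cexp (α * I) * z).re ^ 2 := by rw [← sq_abs, h3, sq_abs]
  have h5 : (z ^ 2).re = ((cexp (α * I) * z) ^ 2).re := by
    have e := norm_rot z α
    rw [sq_re, sq_re, h4, e]
  set u : ℂ := b ^ 2 * cexp (((α * (1 - 2 * t) : ℝ) : ℂ) * I) with hu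
  have e1 : z ^ 2 = u * cexp (((-α : ℝ) : ℂ) * I) := by
    rw [hz, hu, mul_pow, ← Complex.exp_nat_mul, mul_assoc, ← Complex.exp_add, mul_comm]
    congr 2
    push_cast
    ring
  have e2 : (cexp (α * I) * z) ^ 2 = u * cexp (((α : ℝ) : ℂ) * I) := by
    rw [hz', hu, mul_pow, ← Complex.exp_nat_mul, mul_assoc, ← Complex.exp_add, mul_comm]
    congr 2
    push_cast
    ring
  have r1 : ∀ (v : ℂ) (β : ℝ), (v * cexp (β * I)).re = v.re * Real.cos β - v.im * Real.sin β := by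
    intro v β
    rw [Complex.mul_re, exp_ofReal_mul_I_re, exp_ofReal_mul_I_im]
  rw [e1, e2, r1 u, r1 u, Real.cos_neg, Real.sin_neg] at h5
  have h6 : u.im * Real.sin α = 0 := by linarith
  have h7 : u.im ≠ 0 := by
    refine hε2 (y := α * (1 - 2 * t)) ?_
    rw [dist_zero_right, Real.norm_eq_abs]
    refine lt_of_le_of_lt ?_ hαε
    rw [abs_mul, abs_of_pos hα0]
    refine mul_le_of_le_one_right hα0.le (abs_le.2 ⟨by linarith, by linarith⟩)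
  rcases mul_eq_zero.1 h6 with h8 | h8
  · exact h7 h8
  · exact hsin.ne' h8

/-- the converse of the comparison -/
theorem comp_conv {f : ℂ → ℂ} {a : ℝ} (ha : 0 ≤ a)
    (H : ∀ z z' : ℂ, ‖z'‖ = ‖z‖ → a ≤ |z'.re| → |z'.re| < |z.re| → ‖f z'‖ < ‖f z‖) :
    ∀ b : ℂ, f b = 0 → |b.re| ≤ a := by
  intro b hb
  by_contra hcon
  push Not at hcon
  have hab : a ≤ ‖b‖ := hcon.le.trans (Complex.abs_re_le_norm b)
  obtain ⟨y, hy⟩ : ∃ y : ℝ, y = Real.sqrt (‖b‖ ^ 2 - a ^ 2) := ⟨_, rfl⟩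
  have hy2 : y ^ 2 = ‖b‖ ^ 2 - a ^ 2 := by
    rw [hy, Real.sq_sqrt]
    nlinarith
  have h1 : ‖(⟨a, y⟩ : ℂ)‖ = ‖b‖ := by
    have h2 : ‖(⟨a, y⟩ : ℂ)‖ ^ 2 = ‖b‖ ^ 2 := by
      rw [← normSq_eq_norm_sq, normSq_apply]
      simp only
      linarith
    exact (pow_left_inj₀ (norm_nonneg _) (norm_nonneg _) two_ne_zero).1 h2
  have h2 := H b ⟨a, y⟩ h1 (by simp only; exact le_abs_self a) (by
    simp only
    rw [abs_of_nonneg ha]
    exact hcon)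
  rw [hb, norm_zero] at h2
  exact absurd h2 (not_lt.2 (norm_nonneg _))

end Pool.Agent.V1213.AM
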