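import Pool.Agent.Y22.RX3

set_option autoImplicit false

/-!
The completed L-function of the modular discriminant has no zeros at distance less than `2` from the centre.
-/

namespace Pool.Agent.V1213.AM

open Complex Filter Topology MeasureTheory Set
open Pool.Agent.H128R3.JD.DelK (Dl Dl_pos Dl_le Dl_cont mult fac_eq q_lt fac_pos prod_mem)

lemma int_pow (n : ℕ) {r : ℝ} (hr : 0 < r) :
    IntegrableOn (fun t : ℝ => t ^ n * Real.exp (-(r * t))) (Ioi 0) ∧
    ∫ t in Ioi (0 : ℝ), t ^ n * Real.exp (-(r * t)) = (n.factorial : ℝ) / r ^ (n + 1) := by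
  have h := Real.integral_rpow_mul_exp_neg_mul_Ioi (a := (n : ℝ) + 1) (r := r) (by positivity) hr
  have e : ∀ t : ℝ, t ^ (((n : ℝ) + 1) - 1) = t ^ n := fun t => by
    rw [add_sub_cancel_right, Real.rpow_natCast]
  simp only [e] at h
  rw [Real.Gamma_nat_eq_factorial] at h
  have e2 : (1 / r) ^ ((n : ℝ) + 1) * (n.factorial : ℝ) = (n.factorial : ℝ) / r ^ (n + 1) := by
    rw [← Nat.cast_succ, Real.rpow_natCast, one_div, inv_pow, ← div_eq_inv_mul]
  rw [e2] at h
  refine ⟨?_, h⟩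
  by_contra hcon
  have h2 := integral_undef hcon
  rw [h] at h2
  have h3 : (0 : ℝ) < (n.factorial : ℝ) / r ^ (n + 1) := by positivity
  exact absurd h2 h3.ne'

lemma prod_ge {q : ℝ} (hq0 : 0 ≤ q) (hq1 : q ≤ 1) (s : Finset ℕ) :
    1 - 24 * ∑ i ∈ s, q ^ (i + 1) ≤ ∏ i ∈ s, (1 - q ^ (i + 1)) ^ 24 ∧
      ∏ i ∈ s, (1 - q ^ (i + 1)) ^ 24 ≤ 1 := by
  classical
  induction s using Finset.induction_on with
  | empty => simp
  | insert a s ha ih =>
    rw [Finset.sum_insert ha, Finset.prod_insert ha]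
    have h1 : q ^ (a + 1) ≤ 1 := pow_le_one₀ hq0 hq1
    have h0 : 0 ≤ q ^ (a + 1) := by positivity
    have h2 := one_add_mul_le_pow (a := -(q ^ (a + 1))) (by linarith) 24
    have h3 : (1 - q ^ (a + 1)) ^ 24 ≤ 1 := pow_le_one₀ (by linarith) (by linarith)
    have h4 : 1 - 24 * q ^ (a + 1) ≤ (1 - q ^ (a + 1)) ^ 24 := by
      have e : 1 + -(q ^ (a + 1)) = 1 - q ^ (a + 1) := by ring
      rw [e] at h2
      push_cast at h2
      linarith
    have h5 : 0 ≤ (1 - q ^ (a + 1)) ^ 24 := pow_nonneg (by linarith) _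
    set u := (1 - q ^ (a + 1)) ^ 24 with hu
    set p := ∏ i ∈ s, (1 - q ^ (i + 1)) ^ 24 with hp
    obtain ⟨i1, i2⟩ := ih
    constructor
    · nlinarith [mul_nonneg (sub_nonneg.2 h3) (sub_nonneg.2 i2)]
    · have : u * p ≤ u * 1 := mul_le_mul_of_nonneg_left i2 h5
      linarith

lemma Dl_ge {y : ℝ} (hy : 0 < y) :
    Real.exp (-(2 * Real.pi * y)) - 25 * Real.exp (-(4 * Real.pi * y)) ≤ Dl y := by
  set q : ℝ := Real.exp (-(2 * Real.pi * y)) with hq
  have hq2 : Real.exp (-(4 * Real.pi * y)) = q ^ 2 := by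
    rw [hq, ← Real.exp_nat_mul]
    congr 1
    push_cast
    ring
  have hq0 : 0 < q := Real.exp_pos _
  rw [hq2]
  rcases le_or_gt q (1 / 25) with h | h
  · have h1 : ∀ n : ℕ, (1 - Real.exp (-2 * Real.pi * ((n : ℝ) + 1) * y)) ^ 24 = (1 - q ^ (n + 1)) ^ 24 := by
      intro n
      rw [fac_eq]
      congr 3
      rw [hq]
      congr 1
      ring
    have hm := (mult hy).hasProd
    have hsum := (summable_nat_add_iff 1).mpr (summable_geometric_of_lt_one hq0.le (by linarith : q < 1))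
    have hts : ∑' n : ℕ, q ^ (n + 1) = q / (1 - q) := by
      have e : ∀ n : ℕ, q ^ (n + 1) = q * q ^ n := fun n => by ring
      simp only [e]
      rw [tsum_mul_left, tsum_geometric_of_lt_one hq0.le (by linarith)]
      rfl
    have h2 : 1 - 25 * q ≤ ∏' n : ℕ, (1 - Real.exp (-2 * Real.pi * ((n : ℝ) + 1) * y)) ^ 24 := by
      refine ge_of_tendsto' hm fun s => ?_
      simp only [h1]
      have h3 := (prod_ge hq0.le (by linarith) s).1
      have h4 : ∑ i ∈ s, q ^ (i + 1) ≤ q / (1 - q) := by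
        rw [← hts]
        exact hsum.sum_le_tsum s fun i _ => by positivity
      have h5 : q / (1 - q) ≤ 25 / 24 * q := by
        rw [div_le_iff₀ (by linarith)]
        nlinarith
      linarith
    have e : Dl y = q * ∏' n : ℕ, (1 - Real.exp (-2 * Real.pi * ((n : ℝ) + 1) * y)) ^ 24 := by
      unfold Dl
      congr 2
      ring
    rw [e]
    have h6 := mul_le_mul_of_nonneg_left h2 hq0.le
    nlinarith
  · have := Dl_pos hy
    nlinarith

lemma Dl_int (n : ℕ) : IntegrableOn (fun y : ℝ => y ^ n * Dl y) (Ioi 0) := by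
  refine Integrable.mono' (int_pow n (r := 2 * Real.pi) (by positivity)).1 ?_ ?_
  · refine ContinuousOn.aestronglyMeasurable ?_ measurableSet_Ioi
    exact (continuous_pow n).continuousOn.mul Dl_cont
  · refine (ae_restrict_iff' measurableSet_Ioi).2 (ae_of_all _ fun y hy => ?_)
    have hy0 : (0 : ℝ) < y := hy
    have h1 := Dl_le hy0
    have h2 := Dl_pos hy0
    rw [Real.norm_of_nonneg (by positivity)]
    refine mul_le_mul_of_nonneg_left (h1.trans (le_of_eq ?_)) (by positivity)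
    congr 1
    ring

lemma mellin_nat (n : ℕ) : mellin (fun y : ℝ => ((Dl y : ℝ) : ℂ)) ((n : ℂ) + 1) =
    ((∫ y in Ioi (0 : ℝ), y ^ n * Dl y : ℝ) : ℂ) := by
  unfold mellin
  rw [← integral_complex_ofReal]
  refine setIntegral_congr_fun measurableSet_Ioi fun y _ => ?_
  show (y : ℂ) ^ ((n : ℂ) + 1 - 1) • ((Dl y : ℝ) : ℂ) = ((y ^ n * Dl y : ℝ) : ℂ)
  rw [add_sub_cancel_right, cpow_natCast, smul_eq_mul]
  push_cast
  rfl

lemma num : ∫ y in Ioi (0 : ℝ), y ^ 7 * Dl y < 2 * ∫ y in Ioi (0 : ℝ), y ^ 5 * Dl y := by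
  have hpi := Real.pi_gt_three
  obtain ⟨a1, a2⟩ := int_pow 7 (r := 2 * Real.pi) (by positivity)
  obtain ⟨b1, b2⟩ := int_pow 5 (r := 2 * Real.pi) (by positivity)
  obtain ⟨c1, c2⟩ := int_pow 5 (r := 4 * Real.pi) (by positivity)
  have h7 : ∫ y in Ioi (0 : ℝ), y ^ 7 * Dl y ≤ 5040 / (2 * Real.pi) ^ 8 := by
    have e : (5040 : ℝ) / (2 * Real.pi) ^ 8 = ∫ t in Ioi (0 : ℝ), t ^ 7 * Real.exp (-(2 * Real.pi * t)) := by
      rw [a2]
      norm_num [Nat.factorial]
    rw [e]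
    refine setIntegral_mono_on (Dl_int 7) a1 measurableSet_Ioi fun y hy => ?_
    have hy0 : (0 : ℝ) < y := hy
    refine mul_le_mul_of_nonneg_left ((Dl_le hy0).trans (le_of_eq ?_)) (by positivity)
    congr 1
    ring
  have h5 : 120 / (2 * Real.pi) ^ 6 - 25 * (120 / (4 * Real.pi) ^ 6) ≤ ∫ y in Ioi (0 : ℝ), y ^ 5 * Dl y := by
    have e : 120 / (2 * Real.pi) ^ 6 - 25 * (120 / (4 * Real.pi) ^ 6) =
        ∫ t in Ioi (0 : ℝ), (t ^ 5 * Real.exp (-(2 * Real.pi * t)) -
          25 * (t ^ 5 * Real.exp (-(4 * Real.pi * t)))) := by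
      rw [integral_sub b1 (c1.const_mul 25), b2, integral_const_mul, c2]
      norm_num [Nat.factorial]
    rw [e]
    refine setIntegral_mono_on (b1.sub (c1.const_mul 25)) (Dl_int 5) measurableSet_Ioi fun y hy => ?_
    have hy0 : (0 : ℝ) < y := hy
    have h1 := mul_le_mul_of_nonneg_left (Dl_ge hy0) (by positivity : (0 : ℝ) ≤ y ^ 5)
    linarith
  have hp : 0 < Real.pi := Real.pi_pos
  have e5 : 120 / (2 * Real.pi) ^ 6 - 25 * (120 / (4 * Real.pi) ^ 6) = (117 / 4096 * 40) * (1 / Real.pi ^ 6) := by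
    field_simp
    ring
  have e7 : (5040 : ℝ) / (2 * Real.pi) ^ 8 = (5040 / 256) * (1 / Real.pi ^ 8) := by
    field_simp
    ring
  have h8 : 1 / Real.pi ^ 8 ≤ (1 / 9) * (1 / Real.pi ^ 6) := by
    have e : 1 / Real.pi ^ 8 = (1 / Real.pi ^ 2) * (1 / Real.pi ^ 6) := by
      field_simp
    rw [e]
    refine mul_le_mul_of_nonneg_right ?_ (by positivity)
    rw [one_div_le_one_div (by positivity) (by norm_num)]
    nlinarith
  have h9 : 0 < 1 / Real.pi ^ 6 := by positivity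
  rw [e7] at h7
  rw [e5] at h5
  nlinarith

end Pool.Agent.V1213.AM
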