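import Pool.Agent.Y771.NF.Delta
import Pool.Agent.Y771.GL.MF

set_option autoImplicit false

/-!
The completed L-function of the modular discriminant has no zeros with real part more than `13/2`
(from the mean square of the coefficients, Rankin and Selberg).
-/

namespace Pool.Agent.V1213.AM

open UpperHalfPlane hiding I
open MatrixGroups CongruenceSubgroup Filter Topology Complex MeasureTheory Set
open Pool.Agent.H128R3.JD.DelK (Dl Dl_eq)
open Pool.Agent.W97.TW (deltaForm)
open Pool.Agent.Y771.NF (lm psN frm_delta delta_real)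

/-- the normalised L-series does not vanish -/
lemma lser_ne {w : ℂ} (hw : 1 < w.re) : LSeriesSummable (lm (k := 12) deltaForm) w ∧
    LSeries (lm (k := 12) deltaForm) w ≠ 0 := by
  obtain ⟨-, hinv, -, hsum⟩ := Pool.Agent.Y771.GL.mf 12 1 (psN 1) (lm (k := 12) deltaForm) frm_delta
  obtain ⟨h1, h2⟩ := hsum w.re hw
  have key : ∀ g : ℕ → ℂ, Summable (fun n : ℕ => ‖g n‖ * (n : ℝ) ^ (-w.re)) → LSeriesSummable g w := by
    intro g hg
    refine Summable.of_norm_bounded hg fun n => ?_
    rw [LSeries.norm_term_eq]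
    split_ifs with h
    · positivity
    · rw [Real.rpow_neg (Nat.cast_nonneg n), div_eq_mul_inv]
  have s1 := key _ h1
  have s2 := key _ h2
  refine ⟨s1, fun h0 => ?_⟩
  have h3 := LSeries_convolution' s2 s1
  rw [h0, mul_zero] at h3
  have h4 : LSeries (LSeries.convolution (Pool.Agent.Y671.GL.mf (psN 1) (lm (k := 12) deltaForm))
      (lm (k := 12) deltaForm)) w =
      LSeries LSeries.delta w := by
    refine LSeries_congr (fun {n} hn => ?_) w
    rw [LSeries.convolution_def]
    simp only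
    rw [Nat.sum_divisorsAntidiagonal
      (f := fun x y => Pool.Agent.Y671.GL.mf (psN 1) (lm (k := 12) deltaForm) x * lm (k := 12) deltaForm y),
      hinv n (Nat.one_le_iff_ne_zero.2 hn)]
    rfl
  rw [h3, LSeries_delta] at h4
  exact zero_ne_one h4

lemma coeff_eq {n : ℕ} (hn : n ≠ 0) : (qExpansion 1 deltaForm).coeff n =
    lm (k := 12) deltaForm n * (((n : ℝ) ^ (11 / 2 : ℝ) : ℝ) : ℂ) := by
  have hn0 : (0 : ℝ) < n := by exact_mod_cast Nat.pos_of_ne_zero hn
  have hp : (0 : ℝ) < (n : ℝ) ^ (11 / 2 : ℝ) := Real.rpow_pos_of_pos hn0 _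
  have e : (((((12 : ℕ) : ℤ) : ℝ) - 1) / 2) = (11 / 2 : ℝ) := by norm_num
  have h1 : lm (k := 12) deltaForm n =
      ((((qExpansion 1 deltaForm).coeff n).re / (n : ℝ) ^ (11 / 2 : ℝ) : ℝ) : ℂ) := by
    unfold lm W388.lamf
    rw [e]
  rw [h1, ← Complex.ofReal_mul, div_mul_cancel₀ _ hp.ne']
  exact Complex.ext (by rw [Complex.ofReal_re]) (by rw [Complex.ofReal_im, delta_real])

lemma coeff_zero' : (qExpansion 1 deltaForm).coeff 0 = 0 := by
  have h := (frm_delta).zero
  have h2 : ((qExpansion 1 deltaForm).coeff 0) = (qExpansion 1 deltaForm).coeff 0 := rfl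
  exact Pool.Agent.Y771.NF.coeff_zero (f := deltaForm)

theorem mellin_eq {s : ℂ} (hs : 13 / 2 < s.re) : mellin (fun y : ℝ => ((Dl y : ℝ) : ℂ)) s =
    Complex.Gamma s * ((2 * Real.pi : ℝ) : ℂ) ^ (-s) * LSeries (lm (k := 12) deltaForm) (s - 11 / 2) := by
  have hpi := Real.pi_pos
  have hw : 1 < (s - 11 / 2 : ℂ).re := by
    have : (s - 11 / 2 : ℂ).re = s.re - 11 / 2 := by
      rw [Complex.sub_re]
      norm_num
    rw [this]
    linarith
  obtain ⟨hS, -⟩ := lser_ne hw
  have hterm : ∀ n : ℕ, Complex.Gamma s * (qExpansion 1 deltaForm).coeff n / ((2 * Real.pi * (n : ℝ) : ℝ) : ℂ) ^ s =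
      Complex.Gamma s * ((2 * Real.pi : ℝ) : ℂ) ^ (-s) *
        LSeries.term (lm (k := 12) deltaForm) (s - 11 / 2) n := by
    intro n
    rcases eq_or_ne n 0 with h | h
    · rw [h, coeff_zero', LSeries.term_zero]
      simp
    · have hn0 : (0 : ℝ) < n := by exact_mod_cast Nat.pos_of_ne_zero h
      have hnc : (n : ℂ) ≠ 0 := by exact_mod_cast h
      rw [coeff_eq h, LSeries.term_of_ne_zero h, Complex.ofReal_mul,
        mul_cpow_ofReal_nonneg (by positivity) hn0.le, Complex.cpow_neg, Complex.ofReal_natCast,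
        Complex.cpow_sub _ _ hnc]
      have e : (((n : ℝ) ^ (11 / 2 : ℝ) : ℝ) : ℂ) = (n : ℂ) ^ (11 / 2 : ℂ) := by
        rw [Complex.ofReal_cpow hn0.le]
        push_cast
        rfl
      rw [e]
      have h1 : (((2 * Real.pi : ℝ)) : ℂ) ^ s ≠ 0 := by
        rw [Ne, Complex.cpow_eq_zero_iff]
        rintro ⟨h2, -⟩
        have : (2 * Real.pi : ℝ) = 0 := by exact_mod_cast h2
        linarith
      have h2 : (n : ℂ) ^ s ≠ 0 := by
        rw [Ne, Complex.cpow_eq_zero_iff]
        rintro ⟨h2, -⟩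
        exact hnc h2
      have h3 : (n : ℂ) ^ (11 / 2 : ℂ) ≠ 0 := by
        rw [Ne, Complex.cpow_eq_zero_iff]
        rintro ⟨h2, -⟩
        exact hnc h2
      field_simp
  have hmain := hasSum_mellin (a := fun n : ℕ => (qExpansion 1 deltaForm).coeff n)
    (p := fun n : ℕ => 2 * Real.pi * (n : ℝ)) (F := fun y : ℝ => ((Dl y : ℝ) : ℂ)) (s := s)
    (fun n => by
      rcases eq_or_ne n 0 with h | h
      · left
        rw [h]
        exact coeff_zero'
      · right
        have hn0 : (0 : ℝ) < n := by exact_mod_cast Nat.pos_of_ne_zero h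
        positivity) (by linarith) (fun t ht => ?_) ?_
  · simp only [hterm] at hmain
    have h2 := hS.LSeriesHasSum.mul_left (Complex.Gamma s * ((2 * Real.pi : ℝ) : ℂ) ^ (-s))
    exact hmain.unique h2
  · have ht0 : (0 : ℝ) < t := ht
    have hyi : 0 < (Complex.I * (t : ℂ)).im := by simpa using ht0
    have h1 := Pool.Agent.W97.TW.hasSum_f deltaForm hyi
    have h4 := Dl_eq ht0
    have h5 : deltaForm (ofComplex (Complex.I * t)) = ModularForm.discriminant (ofComplex (Complex.I * t)) := rfl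
    rw [h4, ← h5]
    convert h1 using 2 with m
    rw [Complex.ofReal_exp]
    congr 2
    push_cast
    ring_nf
    rw [Complex.I_sq]
    ring
  · have h1 := hS.norm.mul_left ((2 * Real.pi) ^ (-s.re))
    refine h1.congr fun n => ?_
    rcases eq_or_ne n 0 with h | h
    · rw [h, coeff_zero', LSeries.term_zero]
      simp
    · have hn0 : (0 : ℝ) < n := by exact_mod_cast Nat.pos_of_ne_zero h
      have hre : (s - 11 / 2 : ℂ).re = s.re - 11 / 2 := by
        rw [Complex.sub_re]
        norm_num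
      have hp : (0 : ℝ) < (n : ℝ) ^ (11 / 2 : ℝ) := Real.rpow_pos_of_pos hn0 _
      have hp2 : (0 : ℝ) < (n : ℝ) ^ s.re := Real.rpow_pos_of_pos hn0 _
      have hp3 : (0 : ℝ) < (2 * Real.pi) ^ s.re := Real.rpow_pos_of_pos (by positivity) _
      rw [LSeries.norm_term_eq, if_neg h, coeff_eq h, norm_mul, Complex.norm_real, Real.norm_of_nonneg hp.le, hre,
        Real.rpow_sub hn0, Real.mul_rpow (by positivity) hn0.le, Real.rpow_neg (by positivity)]
      field_simp

theorem strip {s : ℂ} (hs : 13 / 2 < s.re) : mellin (fun y : ℝ => ((Dl y : ℝ) : ℂ)) s ≠ 0 := by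
  rw [mellin_eq hs]
  have hw : 1 < (s - 11 / 2 : ℂ).re := by
    have : (s - 11 / 2 : ℂ).re = s.re - 11 / 2 := by
      rw [Complex.sub_re]
      norm_num
    rw [this]
    linarith
  refine mul_ne_zero (mul_ne_zero (Complex.Gamma_ne_zero_of_re_pos (by linarith)) ?_) (lser_ne hw).2
  rw [Ne, Complex.cpow_eq_zero_iff]
  rintro ⟨h2, -⟩
  have : (2 * Real.pi : ℝ) = 0 := by exact_mod_cast h2
  have := Real.pi_pos
  linarith

end Pool.Agent.V1213.AM
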