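import Pool.Agent.V1213.AM.Core
import Pool.Agent.V1213.AM.Disc
import Pool.Agent.V1213.AM.Strip

set_option autoImplicit false

/-!
The modulus of the completed L-function of the modular discriminant on circles around the central point.
-/

namespace Pool.Agent.V1213.AM

open Complex Filter Topology
open Pool.Agent.H471R3.GJ
open Pool.Agent.H128R3.GJB (X1)
open Pool.Agent.H128R3.JD.DelK (Dl)
open Pool.Agent.Y22.RX (Ev gam_pos real_ne)

noncomputable section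

theorem ev_hecke' {H : Hk} (h : IsHk H) (he : H.ε = 1) (hφ : ∀ y, 0 < y → 0 < H.φ y) :
    ∃ (F : ℂ → ℂ) (K : ℝ) (a : ℕ → ℝ), Ev (X1 H) F K ∧ deriv F 0 ≠ 0 ∧ (∀ k, 0 < a k) ∧
      ∀ z, HasSum (fun k : ℕ => (a k : ℂ) * (z ^ 2) ^ k) (X1 H z) := by
  obtain ⟨hxx, -, -, hL⟩ := Pool.Agent.H128R3.GJA.isHk_isL H h
  have hb := b1 (dat H) hL
  obtain ⟨K, hK⟩ := grow (dat H) hL hb
  have hgam := gam_pos h he hφ
  obtain ⟨hF, hX, hconj, hder⟩ := hb
  have hk1 := Pool.Agent.H128R3.GJB.kp_one h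
  have hk0 := Pool.Agent.H128R3.GJB.kp_pos h
  have hkne := Pool.Agent.H128R3.GJB.kp_ne h
  have hx1 : ∀ z, FF (dat H) (z ^ 2 / ((kp H : ℂ)) ^ 2) = X1 H z := by
    intro z
    rw [← div_pow, hX, Pool.Agent.H128R3.GJB.X1_eq h, if_pos he, one_mul]
  refine ⟨fun x => FF (dat H) (x / ((kp H : ℂ)) ^ 2), max K 0,
    fun k => gam (dat H) k / (k.factorial : ℝ) / ((kp H) ^ 2) ^ k, ⟨?_, ?_, ?_, ?_, hx1, ?_⟩, ?_, ?_, ?_⟩
  · exact hF.comp (differentiable_id.div_const _)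
  · have h1 := hder 0
    rw [iteratedDeriv_zero] at h1
    simp only [zero_div]
    rw [h1]
    exact_mod_cast (hgam 0).ne'
  · intro x
    have h1 : (starRingEnd ℂ) x / ((kp H : ℂ)) ^ 2 = (starRingEnd ℂ) (x / ((kp H : ℂ)) ^ 2) := by
      rw [map_div₀, map_pow, Complex.conj_ofReal]
    rw [h1, hconj]
  · intro x
    refine (hK _).trans (Real.exp_le_exp.mpr ?_)
    have h1 : ‖x / ((kp H : ℂ)) ^ 2‖ ≤ ‖x‖ := by
      rw [norm_div, norm_pow, Complex.norm_real, Real.norm_eq_abs, abs_of_pos hk0]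
      exact div_le_self (norm_nonneg _) (one_le_pow₀ hk1)
    have h2 : (1 + ‖x / ((kp H : ℂ)) ^ 2‖) ^ (3 / 4 : ℝ) ≤ (1 + ‖x‖) ^ (3 / 4 : ℝ) :=
      Real.rpow_le_rpow (by positivity) (by linarith) (by norm_num)
    calc K * (1 + ‖x / ((kp H : ℂ)) ^ 2‖) ^ (3 / 4 : ℝ)
        ≤ max K 0 * (1 + ‖x / ((kp H : ℂ)) ^ 2‖) ^ (3 / 4 : ℝ) :=
          mul_le_mul_of_nonneg_right (le_max_left _ _) (by positivity)
      _ ≤ max K 0 * (1 + ‖x‖) ^ (3 / 4 : ℝ) := mul_le_mul_of_nonneg_left h2 (le_max_right _ _)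
  · by_contra hcon
    push Not at hcon
    have h1 : FF (dat H) = fun _ => X1 H 0 := by
      funext x
      obtain ⟨z, hz⟩ := IsAlgClosed.exists_pow_nat_eq (x * ((kp H : ℂ)) ^ 2) (n := 2) (by norm_num)
      rw [← hcon z, ← hx1 z, hz, mul_div_cancel_right₀ _ (pow_ne_zero 2 hkne)]
    have h2 := hder 1
    rw [h1, iteratedDeriv_one, deriv_const] at h2
    have h3 : gam (dat H) 1 = 0 := by exact_mod_cast h2.symm
    exact (hgam 1).ne' h3
  · have h2 := hder 1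
    rw [iteratedDeriv_one] at h2
    have e : HasDerivAt (FF (dat H)) (deriv (FF (dat H)) 0) ((0 : ℂ) / ((kp H : ℂ)) ^ 2) := by
      rw [zero_div]
      exact (hF 0).hasDerivAt
    have h3 := e.comp (0 : ℂ) ((hasDerivAt_id (0 : ℂ)).div_const (((kp H : ℂ)) ^ 2))
    have h4 : deriv (fun x => FF (dat H) (x / ((kp H : ℂ)) ^ 2)) 0 =
        deriv (FF (dat H)) 0 * (1 / ((kp H : ℂ)) ^ 2) := h3.deriv
    rw [h4, h2]
    refine mul_ne_zero ?_ (one_div_ne_zero (pow_ne_zero 2 hkne))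
    exact_mod_cast (hgam 1).ne'
  · intro k
    have := hgam k
    positivity
  · intro z
    have h1 := B1h.hasSum_XX (dat H) hL (z / kp H)
    have h2 : (dat H).XX (z / kp H) = X1 H z := by
      rw [Pool.Agent.H128R3.GJB.X1_eq h, if_pos he, one_mul]
    rw [h2] at h1
    convert h1 using 2 with k
    push_cast
    rw [div_pow z, div_pow (z ^ 2)]
    have : ((kp H : ℂ)) ^ 2 ≠ 0 := pow_ne_zero 2 hkne
    have h5 : (((kp H : ℂ)) ^ 2) ^ k ≠ 0 := pow_ne_zero k this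
    field_simp

/-- the completed L-function of the discriminant, centred at `0` -/
def XD (z : ℂ) : ℂ := mellin (fun y : ℝ => ((Dl y : ℝ) : ℂ)) (6 + z)

lemma XD_eq (B : ℝ) (z : ℂ) : X1 (Pool.Agent.H128R3.JD.DelHk.hk B) z = XD z := by
  show mellin (fun y : ℝ => ((Dl y : ℝ) : ℂ)) ((((12 : ℝ) / 2 : ℝ) : ℂ) + z) = _
  have h6 : (((12 : ℝ) / 2 : ℝ) : ℂ) = 6 := by
    push_cast
    norm_num
  rw [h6]
  rfl

theorem data : ∃ (F : ℂ → ℂ) (K : ℝ) (a : ℕ → ℝ), Ev XD F K ∧ deriv F 0 ≠ 0 ∧ (∀ k, 0 < a k) ∧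
    (∀ z, HasSum (fun k : ℕ => (a k : ℂ) * (z ^ 2) ^ k) (XD z)) ∧ ∀ x : ℝ, XD x ≠ 0 := by
  obtain ⟨B, hB⟩ := Pool.Agent.H128R3.JD.DelHk.isHk
  have hp : ∀ y, 0 < y → 0 < (Pool.Agent.H128R3.JD.DelHk.hk B).φ y := fun y hy =>
    Pool.Agent.H128R3.JD.DelK.Dl_pos hy
  obtain ⟨F, K, a, h1, h2, h3, h4⟩ := ev_hecke' hB rfl hp
  have h5 := real_ne hB rfl hp
  have e : X1 (Pool.Agent.H128R3.JD.DelHk.hk B) = XD := funext (XD_eq B)
  rw [e] at h1 h4 h5
  exact ⟨F, K, a, h1, h2, h3, h4, h5⟩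

theorem disc {a : ℕ → ℝ} (ha : ∀ k, 0 < a k)
    (hS : ∀ z, HasSum (fun k : ℕ => (a k : ℂ) * (z ^ 2) ^ k) (XD z)) {b : ℂ} (hb : XD b = 0) : 2 ≤ ‖b‖ := by
  by_contra hcon
  push Not at hcon
  have h1 := (hasSum_nat_add_iff' 1).2 (hS b)
  have h2 := (hasSum_nat_add_iff' 1).2 (hS 2)
  simp only [Finset.range_one, Finset.sum_singleton, pow_zero, mul_one] at h1 h2
  rw [hb, zero_sub] at h1
  have h3 := Complex.hasSum_re h2
  have h4 : ∀ n : ℕ, ((a (n + 1) : ℂ) * ((2 : ℂ) ^ 2) ^ (n + 1)).re = a (n + 1) * 4 ^ (n + 1) := by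
    intro n
    have : ((a (n + 1) : ℂ) * ((2 : ℂ) ^ 2) ^ (n + 1)) = ((a (n + 1) * 4 ^ (n + 1) : ℝ) : ℂ) := by
      push_cast
      norm_num
    rw [this, Complex.ofReal_re]
  simp only [h4, Complex.sub_re, Complex.ofReal_re] at h3
  have h5 := h1.norm_le_of_bounded h3 (fun n => by
    rw [norm_mul, Complex.norm_real, Real.norm_of_nonneg (ha _).le, norm_pow, norm_pow]
    refine mul_le_mul_of_nonneg_left ?_ (ha _).le
    refine pow_le_pow_left₀ (by positivity) ?_ _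
    nlinarith [norm_nonneg b])
  rw [norm_neg, Complex.norm_real, Real.norm_of_nonneg (ha _).le] at h5
  have h6 : XD 0 = (a 0 : ℂ) := by
    have h7 := hS 0
    have h8 : HasSum (fun k : ℕ => (a k : ℂ) * ((0 : ℂ) ^ 2) ^ k) ((a 0 : ℂ) * ((0 : ℂ) ^ 2) ^ 0) :=
      hasSum_single 0 (fun k hk => by
        rw [zero_pow two_ne_zero, zero_pow hk, mul_zero])
    have h9 := h7.unique h8
    rw [h9, pow_zero, mul_one]
  have h7 : XD 0 = ((∫ y in Set.Ioi (0 : ℝ), y ^ 5 * Dl y : ℝ) : ℂ) := by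
    have := mellin_nat 5
    unfold XD
    rw [← this]
    congr 1
    norm_num
  have h8 : XD 2 = ((∫ y in Set.Ioi (0 : ℝ), y ^ 7 * Dl y : ℝ) : ℂ) := by
    have := mellin_nat 7
    unfold XD
    rw [← this]
    congr 1
    norm_num
  have h9 := num
  rw [h8, Complex.ofReal_re] at h5
  have h10 : a 0 = ∫ y in Set.Ioi (0 : ℝ), y ^ 5 * Dl y := by
    have := h6.symm.trans h7
    exact_mod_cast this
  linarith

theorem strip' {F : ℂ → ℂ} {K : ℝ} (h : Ev XD F K) {b : ℂ} (hb : XD b = 0) : |b.re| ≤ 1 / 2 := by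
  have key : ∀ c : ℂ, XD c = 0 → c.re ≤ 1 / 2 := by
    intro c hc
    by_contra hcon
    push Not at hcon
    refine strip (s := 6 + c) ?_ hc
    have : (6 + c : ℂ).re = 6 + c.re := by
      rw [Complex.add_re]
      norm_num
    rw [this]
    linarith
  have h1 := key b hb
  have h2 := key (-b) (by rw [h.even]; exact hb)
  rw [Complex.neg_re] at h2
  exact abs_le.2 ⟨by linarith, h1⟩

end

end Pool.Agent.V1213.AM
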